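import Pool.Agent.helper7.BQ.Spec
import Pool.Agent.helper85.TG.VA1

set_option autoImplicit false

namespace Pool.Agent.BQ

open Finset ArithmeticFunction MeasureTheory
open Pool.Agent.helper74.TG (ee gb)

private theorem MJ_ee_sub (β : ℝ) : ‖ee β - 1‖ ≤ 2 * Real.pi * |β| := by
  have h1 : ee β = Complex.exp (Complex.I * ((2 * Real.pi * β : ℝ) : ℂ)) := by
    unfold Pool.Agent.helper74.TG.ee
    congr 1
    push_cast
    ring
  rw [h1, Complex.norm_exp_I_mul_ofReal_sub_one, norm_mul, Real.norm_eq_abs, Real.norm_eq_abs]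
  have h2 : |Real.sin (2 * Real.pi * β / 2)| ≤ |2 * Real.pi * β / 2| := Real.abs_sin_le_abs
  have h3 : |2 * Real.pi * β / 2| = Real.pi * |β| := by
    rw [show 2 * Real.pi * β / 2 = Real.pi * β by ring, abs_mul, abs_of_pos Real.pi_pos]
  rw [h3] at h2
  rw [abs_two]
  linarith

private theorem MJ_Sw_succ (f : ℕ → ℝ) (t y : ℕ) (α : ℝ) :
    Sw f (t + 1) y α = Sw f t y α + (f (y + t + 1) : ℂ) * ee (((y + t + 1 : ℕ) : ℝ) * α) := by
  unfold Sw
  rw [← add_assoc, Finset.sum_Ioc_succ_top (by omega)]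

private theorem MJ_abel (f : ℕ → ℝ) (B y : ℕ) (α β : ℝ) :
    Sw f B y (α + β) = Sw f B y α * ee (((y + B : ℕ) : ℝ) * β) -
      ∑ t ∈ range B, Sw f t y α * (ee (((y + t + 1 : ℕ) : ℝ) * β) - ee (((y + t : ℕ) : ℝ) * β)) := by
  induction B with
  | zero => simp [Sw]
  | succ B ih =>
    rw [MJ_Sw_succ, MJ_Sw_succ, ih, Finset.sum_range_succ]
    have h1 : ee (((y + B + 1 : ℕ) : ℝ) * (α + β)) =
        ee (((y + B + 1 : ℕ) : ℝ) * α) * ee (((y + B + 1 : ℕ) : ℝ) * β) := by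
      rw [mul_add, Pool.Agent.helper74.TG.h85_ee_add]
    rw [h1, show y + (B + 1) = y + B + 1 by ring]
    ring

private theorem MJ_norm (f : ℕ → ℝ) (B y : ℕ) (α β : ℝ) :
    ‖Sw f B y (α + β)‖ ≤ ‖Sw f B y α‖ + 2 * Real.pi * |β| * ∑ t ∈ range B, ‖Sw f t y α‖ := by
  rw [MJ_abel]
  refine le_trans (norm_sub_le _ _) ?_
  apply add_le_add
  · rw [norm_mul, Pool.Agent.helper74.TG.h85_norm_ee, mul_one]
  · rw [Finset.mul_sum]
    refine le_trans (norm_sum_le _ _) ?_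
    apply Finset.sum_le_sum
    intro t _
    have h1 : ee (((y + t + 1 : ℕ) : ℝ) * β) - ee (((y + t : ℕ) : ℝ) * β) =
        ee (((y + t : ℕ) : ℝ) * β) * (ee β - 1) := by
      rw [show (((y + t + 1 : ℕ) : ℝ) * β) = ((y + t : ℕ) : ℝ) * β + β by push_cast; ring,
        Pool.Agent.helper74.TG.h85_ee_add]
      ring
    rw [h1, norm_mul, norm_mul, Pool.Agent.helper74.TG.h85_norm_ee, one_mul, mul_comm]
    exact mul_le_mul_of_nonneg_right (MJ_ee_sub β) (norm_nonneg _)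

private theorem MJ_WS (f : ℕ → ℝ) (Y B : ℕ) (α β : ℝ) :
    WS f Y B (α + β) ≤ 2 * WS f Y B α +
      2 * (2 * Real.pi * |β|) ^ 2 * B * ∑ t ∈ range B, WS f Y t α := by
  have h1 : ∀ y, ‖Sw f B y (α + β)‖ ^ 2 ≤ 2 * ‖Sw f B y α‖ ^ 2 +
      2 * (2 * Real.pi * |β|) ^ 2 * B * ∑ t ∈ range B, ‖Sw f t y α‖ ^ 2 := by
    intro y
    have h2 := MJ_norm f B y α β
    have h3 : (∑ t ∈ range B, ‖Sw f t y α‖) ^ 2 ≤ (B : ℝ) * ∑ t ∈ range B, ‖Sw f t y α‖ ^ 2 := by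
      have := sq_sum_le_card_mul_sum_sq (s := range B) (f := fun t => ‖Sw f t y α‖)
      rwa [Finset.card_range] at this
    set G := ‖Sw f B y α‖
    set S := ∑ t ∈ range B, ‖Sw f t y α‖
    set c := 2 * Real.pi * |β|
    have hc : 0 ≤ c := by positivity
    have hS : 0 ≤ S := Finset.sum_nonneg fun _ _ => norm_nonneg _
    have h4 : ‖Sw f B y (α + β)‖ ^ 2 ≤ (G + c * S) ^ 2 :=
      pow_le_pow_left₀ (norm_nonneg _) h2 2
    have h5 : (G + c * S) ^ 2 ≤ 2 * G ^ 2 + 2 * c ^ 2 * S ^ 2 := by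
      nlinarith [sq_nonneg (G - c * S)]
    have h6 : 2 * c ^ 2 * S ^ 2 ≤ 2 * c ^ 2 * ((B : ℝ) * ∑ t ∈ range B, ‖Sw f t y α‖ ^ 2) :=
      mul_le_mul_of_nonneg_left h3 (by positivity)
    calc ‖Sw f B y (α + β)‖ ^ 2 ≤ 2 * G ^ 2 + 2 * c ^ 2 * S ^ 2 := h4.trans h5
      _ ≤ 2 * G ^ 2 + 2 * c ^ 2 * ((B : ℝ) * ∑ t ∈ range B, ‖Sw f t y α‖ ^ 2) := by linarith
      _ = _ := by ring
  unfold WS
  refine le_trans (Finset.sum_le_sum fun y _ => h1 y) (le_of_eq ?_)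
  rw [Finset.sum_add_distrib, ← Finset.mul_sum, ← Finset.mul_sum, Finset.sum_comm]

private theorem MJ_small (f : ℕ → ℝ) (Y t : ℕ) (α : ℝ) (ht : t ≤ Y) :
    WS f Y t α ≤ (t : ℝ) ^ 2 * ∑ n ∈ Ioc 0 (3 * Y), f n ^ 2 := by
  have h1 : ∀ y, ‖Sw f t y α‖ ^ 2 ≤ (t : ℝ) * ∑ n ∈ Ioc y (y + t), f n ^ 2 := by
    intro y
    have h2 : ‖Sw f t y α‖ ≤ ∑ n ∈ Ioc y (y + t), |f n| := by
      unfold Sw
      refine le_trans (norm_sum_le _ _) (Finset.sum_le_sum fun n _ => ?_)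
      rw [norm_mul, Pool.Agent.helper74.TG.h85_norm_ee, mul_one, Complex.norm_real, Real.norm_eq_abs]
    have h3 : (∑ n ∈ Ioc y (y + t), |f n|) ^ 2 ≤ (t : ℝ) * ∑ n ∈ Ioc y (y + t), |f n| ^ 2 := by
      have := sq_sum_le_card_mul_sum_sq (s := Ioc y (y + t)) (f := fun n => |f n|)
      rwa [Nat.card_Ioc, show y + t - y = t by omega] at this
    calc ‖Sw f t y α‖ ^ 2 ≤ (∑ n ∈ Ioc y (y + t), |f n|) ^ 2 :=
          pow_le_pow_left₀ (norm_nonneg _) h2 2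
      _ ≤ _ := h3
      _ = (t : ℝ) * ∑ n ∈ Ioc y (y + t), f n ^ 2 := by
          congr 1
          apply Finset.sum_congr rfl
          intro n _
          rw [sq_abs]
  unfold WS
  refine le_trans (Finset.sum_le_sum fun y _ => h1 y) ?_
  rw [← Finset.mul_sum, pow_two, mul_assoc]
  apply mul_le_mul_of_nonneg_left _ (Nat.cast_nonneg t)
  have h4 : ∀ y ∈ Ico Y (2 * Y), ∑ n ∈ Ioc y (y + t), f n ^ 2 =
      ∑ n ∈ Ioc 0 (3 * Y), if y < n ∧ n ≤ y + t then f n ^ 2 else 0 := by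
    intro y hy
    rw [Finset.mem_Ico] at hy
    rw [← Finset.sum_filter]
    apply Finset.sum_congr _ (fun _ _ => rfl)
    ext n
    simp only [Finset.mem_Ioc, Finset.mem_filter]
    constructor
    · rintro ⟨h5, h6⟩
      exact ⟨⟨by omega, by omega⟩, h5, h6⟩
    · rintro ⟨_, h5, h6⟩
      exact ⟨h5, h6⟩
  rw [Finset.sum_congr rfl h4, Finset.sum_comm, Finset.mul_sum]
  apply Finset.sum_le_sum
  intro n _
  rw [← Finset.sum_filter, Finset.sum_const, nsmul_eq_mul]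
  apply mul_le_mul_of_nonneg_right _ (sq_nonneg _)
  have h5 : #((Ico Y (2 * Y)).filter fun y => y < n ∧ n ≤ y + t) ≤ #(Ico (n - t) n) := by
    apply Finset.card_le_card
    intro y hy
    rw [Finset.mem_filter] at hy
    rw [Finset.mem_Ico]
    omega
  rw [Nat.card_Ico] at h5
  have h6 : #((Ico Y (2 * Y)).filter fun y => y < n ∧ n ≤ y + t) ≤ t := by omega
  exact_mod_cast h6

private theorem MJ_Sw_sub (Q t y : ℕ) (α : ℝ) :
    Sw (fl Q) t y α = Sw (fun n => vonMangoldt n) t y α - Sw (fun n => Lsh Q (n : ℤ)) t y α := by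
  unfold Sw
  rw [← Finset.sum_sub_distrib]
  apply Finset.sum_congr rfl
  intro n _
  unfold fl
  push_cast
  ring

private theorem MJ_ev (E : ℕ) (s : ℝ) (hs : 0 < s) :
    ∀ᶠ Y : ℕ in Filter.atTop, Real.log Y ^ E ≤ (Y : ℝ) ^ s := by
  have h1 := (isLittleO_log_rpow_rpow_atTop (E : ℝ) hs).bound (show (0 : ℝ) < 1 by norm_num)
  have h2 := tendsto_natCast_atTop_atTop (R := ℝ) |>.eventually h1
  filter_upwards [h2, Filter.eventually_ge_atTop 1] with Y hY hY1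
  have h3 : 0 ≤ Real.log Y := Real.log_nonneg (by exact_mod_cast hY1)
  rw [one_mul, Real.norm_eq_abs, Real.norm_eq_abs, Real.rpow_natCast, abs_of_nonneg (by positivity),
    abs_of_nonneg (by positivity)] at hY
  exact hY

private theorem MJ_evlog (c : ℝ) : ∀ᶠ Y : ℕ in Filter.atTop, c ≤ Real.log Y := by
  have h1 := Real.tendsto_log_atTop.comp (tendsto_natCast_atTop_atTop (R := ℝ))
  exact h1.eventually_ge_atTop c

theorem MJ (h1 : MJL_stmt) (h2 : MJR_stmt) (h3 : SQF_stmt) : MJ_stmt := by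
  intro θ A K L hθ
  obtain ⟨C, hC, hSQ⟩ := h3
  obtain ⟨X₀, hX₀⟩ := hSQ K
  obtain ⟨Y₁, hY₁⟩ := h1 (θ / 2) (A + 2 * L + 1) K (by positivity)
  have hev := (((((Filter.eventually_ge_atTop (max (max X₀ Y₁) 3)).and
    (MJ_evlog (328 + 984 * C))).and (MJ_ev (A + 2 * L + 2) (θ / 2) (by positivity))).and
    (MJ_ev (6 * K + (A + 2 * L + 1)) 1 one_pos)))
  obtain ⟨Y₀, hY₀⟩ := Filter.eventually_atTop.1 hev
  refine ⟨Y₀, ?_⟩
  intro Y hY B hB1 hB2 Q hQ q hq1 hq2 a β hcop hβ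
  obtain ⟨⟨⟨hY3, hl⟩, hE⟩, hK⟩ := hY₀ Y hY
  have hYX : X₀ ≤ Y := le_trans (le_trans (le_max_left _ _) (le_max_left _ _)) hY3
  have hYY : Y₁ ≤ Y := le_trans (le_trans (le_max_right _ _) (le_max_left _ _)) hY3
  have hY3' : 3 ≤ Y := le_trans (le_max_right _ _) hY3
  have hYr : (3 : ℝ) ≤ Y := by exact_mod_cast hY3'
  have hYpos : (0 : ℝ) < Y := by linarith
  set l := Real.log Y with hl0
  have hl328 : 328 ≤ l := by nlinarith
  have hl984 : 984 * C ≤ l := by linarith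
  have hl1 : 1 ≤ l := by linarith
  have hlpos : 0 < l := by linarith
  have hBr : (B : ℝ) ≤ Y := by exact_mod_cast hB2
  have hB0 : (0 : ℝ) ≤ B := Nat.cast_nonneg B
  -- the bound for all `t`
  set W : ℝ := Y * (B : ℝ) ^ 2 / (82 * l ^ (A + 2 * L)) with hW
  have hW0 : 0 ≤ W := by positivity
  have hlog3 : Real.log ((3 * Y : ℕ) : ℝ) ≤ 2 * l := by
    push_cast
    rw [Real.log_mul (by norm_num) hYpos.ne']
    have : Real.log 3 ≤ Real.log Y := Real.log_le_log (by norm_num) hYr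
    linarith
  have hlog3' : l ≤ Real.log ((3 * Y : ℕ) : ℝ) := by
    apply Real.log_le_log hYpos
    push_cast
    linarith
  have hsum : ∑ n ∈ Ioc 0 (3 * Y), fl Q n ^ 2 ≤ 12 * C * Y * l ^ 2 := by
    have hQ' : (Q : ℝ) ≤ Real.log ((3 * Y : ℕ) : ℝ) ^ K :=
      hQ.trans (pow_le_pow_left₀ hlpos.le hlog3' K)
    refine le_trans (hX₀ (3 * Y) (by omega) Q hQ') ?_
    have h5 : Real.log ((3 * Y : ℕ) : ℝ) ^ 2 ≤ (2 * l) ^ 2 :=
      pow_le_pow_left₀ (hlpos.le.trans hlog3') hlog3 2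
    calc C * ((3 * Y : ℕ) : ℝ) * Real.log ((3 * Y : ℕ) : ℝ) ^ 2
        ≤ C * ((3 * Y : ℕ) : ℝ) * (2 * l) ^ 2 := mul_le_mul_of_nonneg_left h5 (by positivity)
      _ = 12 * C * Y * l ^ 2 := by push_cast; ring
  have hmain : ∀ t : ℕ, t ≤ B → WS (fl Q) Y t ((a : ℝ) / q) ≤ W := by
    intro t ht
    have htr : (t : ℝ) ≤ B := by exact_mod_cast ht
    have ht0 : (0 : ℝ) ≤ t := Nat.cast_nonneg t
    rcases le_or_gt ((B : ℝ) / l ^ (A + 2 * L + 2)) t with hcase | hcase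
    · -- large `t`
      have hY2 : (Y : ℝ) ^ (1 / 2 + θ / 2) ≤ t := by
        refine le_trans ?_ hcase
        rw [le_div_iff₀ (by positivity)]
        calc (Y : ℝ) ^ (1 / 2 + θ / 2) * l ^ (A + 2 * L + 2)
            ≤ (Y : ℝ) ^ (1 / 2 + θ / 2) * (Y : ℝ) ^ (θ / 2) :=
              mul_le_mul_of_nonneg_left hE (by positivity)
          _ = (Y : ℝ) ^ (1 / 2 + θ) := by
              rw [← Real.rpow_add hYpos]
              congr 1
              ring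
          _ ≤ B := hB1
      have hqK : (q : ℝ) ≤ l ^ K := le_trans (by exact_mod_cast hq2) hQ
      have hL1 := hY₁ Y hYY t hY2 (by omega) q hq1 hqK a hcop
      have hR1 : ∀ y : ℕ, ‖Sw (fun n => Lsh Q (n : ℤ)) t y ((a : ℝ) / q) -
          ((((moebius q : ℤ) : ℝ) / (Nat.totient q : ℝ) * t : ℝ) : ℂ)‖ ≤ (Q : ℝ) ^ 3 :=
        fun y => h2 Q q y t a hq1 hq2 hcop
      have hpt : ∀ y : ℕ, ‖Sw (fl Q) t y ((a : ℝ) / q)‖ ^ 2 ≤
          2 * ‖Sw (fun n => vonMangoldt n) t y ((a : ℝ) / q) -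
            ((((moebius q : ℤ) : ℝ) / (Nat.totient q : ℝ) * t : ℝ) : ℂ)‖ ^ 2 +
          2 * (Q : ℝ) ^ 6 := by
        intro y
        rw [MJ_Sw_sub]
        set u := Sw (fun n => vonMangoldt n) t y ((a : ℝ) / q)
        set v := Sw (fun n => Lsh Q (n : ℤ)) t y ((a : ℝ) / q)
        set m : ℂ := ((((moebius q : ℤ) : ℝ) / (Nat.totient q : ℝ) * t : ℝ) : ℂ)
        have h5 : ‖u - v‖ ≤ ‖u - m‖ + ‖v - m‖ := by
          rw [show u - v = (u - m) - (v - m) by ring]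
          exact norm_sub_le _ _
        have h6 : ‖v - m‖ ≤ (Q : ℝ) ^ 3 := hR1 y
        have h7 : ‖u - v‖ ^ 2 ≤ (‖u - m‖ + ‖v - m‖) ^ 2 := pow_le_pow_left₀ (norm_nonneg _) h5 2
        have h8 : ‖v - m‖ ^ 2 ≤ ((Q : ℝ) ^ 3) ^ 2 := pow_le_pow_left₀ (norm_nonneg _) h6 2
        have h9 : ((Q : ℝ) ^ 3) ^ 2 = (Q : ℝ) ^ 6 := by ring
        nlinarith [sq_nonneg (‖u - m‖ - ‖v - m‖)]
      have hWS : WS (fl Q) Y t ((a : ℝ) / q) ≤
          2 * (Y * (t : ℝ) ^ 2 / l ^ (A + 2 * L + 1)) + 2 * (Y * (Q : ℝ) ^ 6) := by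
        unfold WS
        refine le_trans (Finset.sum_le_sum fun y _ => hpt y) ?_
        rw [Finset.sum_add_distrib, ← Finset.mul_sum, Finset.sum_const, Nat.card_Ico, nsmul_eq_mul,
          show 2 * Y - Y = Y by omega]
        have := hL1
        linarith
      have hQ6 : (Q : ℝ) ^ 6 ≤ (t : ℝ) ^ 2 / l ^ (A + 2 * L + 1) := by
        rw [le_div_iff₀ (by positivity)]
        have h5 : (Q : ℝ) ^ 6 ≤ (l ^ K) ^ 6 := pow_le_pow_left₀ (Nat.cast_nonneg _) hQ 6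
        have h6 : (Y : ℝ) ≤ (t : ℝ) ^ 2 := by
          have h7 : (Y : ℝ) ^ (1 / 2 : ℝ) ≤ (Y : ℝ) ^ (1 / 2 + θ / 2) :=
            Real.rpow_le_rpow_of_exponent_le (by linarith) (by linarith)
          have h8 : (Y : ℝ) ^ (1 / 2 : ℝ) ≤ t := h7.trans hY2
          have h9 : ((Y : ℝ) ^ (1 / 2 : ℝ)) ^ 2 = Y := by
            rw [← Real.rpow_natCast, ← Real.rpow_mul hYpos.le]
            norm_num
          calc (Y : ℝ) = ((Y : ℝ) ^ (1 / 2 : ℝ)) ^ 2 := h9.symm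
            _ ≤ (t : ℝ) ^ 2 := pow_le_pow_left₀ (by positivity) h8 2
        calc (Q : ℝ) ^ 6 * l ^ (A + 2 * L + 1) ≤ (l ^ K) ^ 6 * l ^ (A + 2 * L + 1) :=
              mul_le_mul_of_nonneg_right h5 (by positivity)
          _ = l ^ (6 * K + (A + 2 * L + 1)) := by
              rw [← pow_mul, ← pow_add, mul_comm K 6]
          _ ≤ (Y : ℝ) ^ (1 : ℝ) := hK
          _ = Y := Real.rpow_one _
          _ ≤ (t : ℝ) ^ 2 := h6
      have h10 : WS (fl Q) Y t ((a : ℝ) / q) ≤ 4 * (Y * (t : ℝ) ^ 2 / l ^ (A + 2 * L + 1)) := by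
        have h11 : Y * (Q : ℝ) ^ 6 ≤ Y * (t : ℝ) ^ 2 / l ^ (A + 2 * L + 1) := by
          rw [mul_div_assoc]
          exact mul_le_mul_of_nonneg_left hQ6 hYpos.le
        linarith
      refine h10.trans ?_
      rw [hW, pow_succ l (A + 2 * L), le_div_iff₀ (by positivity)]
      have h12 : (t : ℝ) ^ 2 ≤ (B : ℝ) ^ 2 := pow_le_pow_left₀ ht0 htr 2
      calc 4 * (Y * (t : ℝ) ^ 2 / (l ^ (A + 2 * L) * l)) * (82 * l ^ (A + 2 * L))
          = Y * (t : ℝ) ^ 2 * (328 / l) := by field_simp; ring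
        _ ≤ Y * (t : ℝ) ^ 2 * 1 := by
            apply mul_le_mul_of_nonneg_left _ (by positivity)
            rw [div_le_one hlpos]; exact hl328
        _ ≤ Y * (B : ℝ) ^ 2 := by
            rw [mul_one]
            exact mul_le_mul_of_nonneg_left h12 hYpos.le
    · -- small `t`
      refine le_trans (MJ_small (fl Q) Y t _ (by omega)) ?_
      have h5 : (t : ℝ) ^ 2 ≤ ((B : ℝ) / l ^ (A + 2 * L + 2)) ^ 2 :=
        pow_le_pow_left₀ ht0 hcase.le 2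
      have h6 : (t : ℝ) ^ 2 * ∑ n ∈ Ioc 0 (3 * Y), fl Q n ^ 2 ≤
          ((B : ℝ) / l ^ (A + 2 * L + 2)) ^ 2 * (12 * C * Y * l ^ 2) :=
        mul_le_mul h5 hsum (Finset.sum_nonneg fun _ _ => sq_nonneg _) (by positivity)
      refine h6.trans ?_
      rw [hW, le_div_iff₀ (by positivity)]
      have h7 : ((B : ℝ) / l ^ (A + 2 * L + 2)) ^ 2 * (12 * C * Y * l ^ 2) * (82 * l ^ (A + 2 * L)) =
          Y * (B : ℝ) ^ 2 * (984 * C / l ^ (A + 2 * L + 2)) := by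
        rw [show l ^ (A + 2 * L + 2) = l ^ (A + 2 * L) * l ^ 2 by rw [← pow_add]]
        field_simp
        ring
      rw [h7]
      have h8 : 984 * C / l ^ (A + 2 * L + 2) ≤ 1 := by
        rw [div_le_one (by positivity)]
        exact hl984.trans (le_self_pow₀ hl1 (by omega))
      calc Y * (B : ℝ) ^ 2 * (984 * C / l ^ (A + 2 * L + 2)) ≤ Y * (B : ℝ) ^ 2 * 1 :=
            mul_le_mul_of_nonneg_left h8 (by positivity)
        _ = Y * (B : ℝ) ^ 2 := mul_one _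
  have hfin := MJ_WS (fl Q) Y B ((a : ℝ) / q) β
  have h5 : ∑ t ∈ range B, WS (fl Q) Y t ((a : ℝ) / q) ≤ B * W := by
    have := Finset.sum_le_card_nsmul (range B) (fun t => WS (fl Q) Y t ((a : ℝ) / q)) W
      (fun t ht => hmain t (Finset.mem_range.1 ht).le)
    rwa [Finset.card_range, nsmul_eq_mul] at this
  have h6 := hmain B le_rfl
  have h7 : 2 * (2 * Real.pi * |β|) ^ 2 * B * ∑ t ∈ range B, WS (fl Q) Y t ((a : ℝ) / q) ≤
      80 * (|β| * B) ^ 2 * W := by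
    calc 2 * (2 * Real.pi * |β|) ^ 2 * B * ∑ t ∈ range B, WS (fl Q) Y t ((a : ℝ) / q)
        ≤ 2 * (2 * Real.pi * |β|) ^ 2 * B * (B * W) := mul_le_mul_of_nonneg_left h5 (by positivity)
      _ = 8 * Real.pi ^ 2 * ((|β| * B) ^ 2 * W) := by ring
      _ ≤ 80 * ((|β| * B) ^ 2 * W) := by
          apply mul_le_mul_of_nonneg_right _ (by positivity)
          have := Real.pi_lt_d2
          nlinarith [Real.pi_pos]
      _ = _ := by ring
  have h8 : (|β| * B) ^ 2 ≤ l ^ (2 * L) := by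
    calc (|β| * B) ^ 2 ≤ (l ^ L) ^ 2 := pow_le_pow_left₀ (by positivity) hβ 2
      _ = l ^ (2 * L) := by rw [← pow_mul, mul_comm L 2]
  have h9 : 1 ≤ l ^ (2 * L) := one_le_pow₀ hl1
  calc WS (fl Q) Y B ((a : ℝ) / q + β) ≤ 2 * W + 80 * (|β| * B) ^ 2 * W := by linarith
    _ ≤ 2 * l ^ (2 * L) * W + 80 * l ^ (2 * L) * W := by
        apply add_le_add
        · apply mul_le_mul_of_nonneg_right _ hW0
          linarith
        · apply mul_le_mul_of_nonneg_right _ hW0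
          linarith
    _ = Y * (B : ℝ) ^ 2 / l ^ A := by
        rw [hW, show l ^ (A + 2 * L) = l ^ A * l ^ (2 * L) by rw [← pow_add]]
        field_simp
        ring

end Pool.Agent.BQ
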